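import Mathlib
import Pool.Agent.Helper75.PM.Defs
import Pool.Agent.Helper75.PM.P_main
import Pool.Agent.Helper75.PM.P_series

set_option autoImplicit false

namespace Pool.Agent.Results.MP_8fcd2c_al.AbelianRadical

/-- Let `G` be a locally finite group with the `p`-minimal condition and a finite subnormal series
whose factors are finite or `p'`-groups. Suppose that every normal `p'`-subgroup of `G` contains
with finite index an abelian subgroup that is normal in `G`. Then the subgroup generated by the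
`p`-elements of `G` is a Chernikov group. -/
theorem result (p : ℕ) (hp : p.Prime) (G : Type) [Group G]
    (hlf : ∀ s : Set G, s.Finite → (Subgroup.closure s : Set G).Finite)
    (hm : ¬ ∃ H : ℕ → Subgroup G, ∀ i : ℕ, H (i + 1) < H i ∧
        ∃ g ∈ H i, g ∉ H (i + 1) ∧ ∃ k : ℕ, g ^ (p ^ k) = 1)
    (hs : ∃ n : ℕ, ∃ H : ℕ → Subgroup G, H 0 = ⊥ ∧ H n = ⊤ ∧
        ∀ i < n, H i ≤ H (i + 1) ∧ ((H i).subgroupOf (H (i + 1))).Normal ∧
          ((H i).relIndex (H (i + 1)) ≠ 0 ∨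
            ∀ x ∈ H (i + 1), ∀ k : ℕ, x ^ (p ^ k) ∈ H i → x ∈ H i))
    (hab : ∀ N : Subgroup G, N.Normal → (∀ a ∈ N, ∀ k : ℕ, a ^ (p ^ k) = 1 → a = 1) →
      ∃ M : Subgroup G, M.Normal ∧ M ≤ N ∧ M.relIndex N ≠ 0 ∧
        ∀ a ∈ M, ∀ b ∈ M, a * b = b * a) :
    ∃ A : Subgroup G,
      A ≤ Subgroup.closure {g : G | ∃ k : ℕ, g ^ (p ^ k) = 1} ∧
      (A.subgroupOf (Subgroup.closure {g : G | ∃ k : ℕ, g ^ (p ^ k) = 1})).Normal ∧
      A.relIndex (Subgroup.closure {g : G | ∃ k : ℕ, g ^ (p ^ k) = 1}) ≠ 0 ∧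
      (∀ a ∈ A, ∀ b ∈ A, a * b = b * a) ∧
      (∀ a ∈ A, ∀ m : ℕ, 0 < m → ∃ b ∈ A, b ^ m = a) ∧
      {a : G | a ∈ A ∧ ∃ q : ℕ, q.Prime ∧ a ^ q = 1}.Finite := by
  obtain ⟨n, H, hH⟩ := hs
  obtain ⟨N, hN1, hN2, hN3⟩ := Pool.Agent.Helper75.PM.series p hp n G hlf ⟨H, hH⟩
  haveI : N.Characteristic := hN1
  obtain ⟨M, hM1, hM2, hM3, hM4⟩ := hab N inferInstance hN3
  haveI := hM1
  have hMi : M.index ≠ 0 := by
    rw [← Subgroup.relIndex_mul_index hM2]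
    exact Nat.mul_ne_zero hM3 hN2
  exact Pool.Agent.Helper75.PM.main p hp G hlf hm M hM4 (fun a ha => hN3 a (hM2 ha)) hMi

end Pool.Agent.Results.MP_8fcd2c_al.AbelianRadical
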